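import Pool.Agent.H84.SM.Targets

/-!
# The form of a smooth curve stays prime, and its derivatives are not divisible by it
-/

set_option autoImplicit false

namespace Pool.Agent.H42.SM

open MvPolynomial Pool.Agent.H84.SM

variable {k : Type} [Field k]

/-- a prime stays prime under an injective renaming of the variables -/
lemma prime_ren {σ τ : Type} {f : σ → τ} (hf : Function.Injective f) {G : MvPolynomial σ k}
    (hG : Prime G) : Prime (rename f G) := by
  have h1 : rename f G = rename ((↑) : Set.range f → τ)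
      (renameEquiv k (Equiv.ofInjective f hf) G) := by
    rw [renameEquiv_apply, rename_rename]
    rfl
  rw [h1, MvPolynomial.prime_rename_iff]
  exact (MulEquiv.prime_iff (renameEquiv k (Equiv.ofInjective f hf)).toMulEquiv).2 hG

lemma pd_comm {σ : Type} (i j : σ) (p : MvPolynomial σ k) :
    pderiv i (pderiv j p) = pderiv j (pderiv i p) := by
  classical
  ext m
  rw [coeff_pderiv, coeff_pderiv, coeff_pderiv, coeff_pderiv, add_right_comm]
  by_cases h : i = j
  · subst h
    rfl
  · rw [Finsupp.add_apply, Finsupp.add_apply, Finsupp.single_eq_of_ne (Ne.symm h),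
      Finsupp.single_eq_of_ne h]
    push_cast
    ring

/-- divisibility is reflected by the renaming `Sum.inl` -/
lemma dvd_ren {σ τ : Type} {G P : MvPolynomial σ k}
    (h : rename (Sum.inl : σ → σ ⊕ τ) G ∣ rename (Sum.inl : σ → σ ⊕ τ) P) : G ∣ P := by
  have h1 := map_dvd (aeval (Sum.elim X fun _ => 0) :
    MvPolynomial (σ ⊕ τ) k →ₐ[k] MvPolynomial σ k) h
  rw [aeval_rename, aeval_rename, Sum.elim_comp_inl, aeval_X_left_apply, aeval_X_left_apply] at h1
  exact h1

lemma aeval_xb (P : MvPolynomial (Fin 3) k) :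
    aeval (xb (k := k)) P = rename (Sum.inl : Fin 3 → Fin 3 ⊕ Fin 2) P := by
  have h : (aeval (xb (k := k)) : MvPolynomial (Fin 3) k →ₐ[k] B2 k) =
      rename (Sum.inl : Fin 3 → Fin 3 ⊕ Fin 2) := by
    refine algHom_ext fun i => ?_
    rw [aeval_X, rename_X]
    rfl
  rw [h]

lemma aeval_xa (P : MvPolynomial (Fin 3) k) :
    aeval (xa (k := k)) P = rename (Sum.inl : Fin 3 → Fin 3 ⊕ Fin 3) P := by
  have h : (aeval (xa (k := k)) : MvPolynomial (Fin 3) k →ₐ[k] A2 k) =
      rename (Sum.inl : Fin 3 → Fin 3 ⊕ Fin 3) := by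
    refine algHom_ext fun i => ?_
    rw [aeval_X, rename_X]
    rfl
  rw [h]

theorem pf_GPR : T_GPR := by
  intro k _ _ _ G d hd hG hirr
  have hP : Prime G := UniqueFactorizationMonoid.irreducible_iff_prime.1 hirr
  have h1 : Prime (aeval (xb (k := k)) G) := by
    rw [aeval_xb]
    exact prime_ren Sum.inl_injective hP
  have h2 : Prime (gA G) := by
    unfold gA
    rw [aeval_xa]
    exact prime_ren Sum.inl_injective hP
  refine ⟨Polynomial.prime_C_iff.2 h1, h1, h2, Polynomial.prime_C_iff.2 h2, fun l => ?_⟩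
  have hne : pderiv l G ≠ 0 := by
    intro h0
    have h3 : ∀ i, eval (Pi.single l (1 : k)) (pderiv i G) = 0 := by
      intro i
      have h4 : (pderiv i G).IsHomogeneous (d - 1) := hG.1.pderiv
      have h5 := congrArg (eval (Pi.single l (1 : k))) h4.sum_X_mul_pderiv
      have h6 : pderiv l (pderiv i G) = 0 := by
        rw [pd_comm, h0, map_zero]
      rw [map_sum, Finset.sum_eq_single l] at h5
      · rw [h6, mul_zero, map_zero, nsmul_eq_mul, map_mul, map_natCast] at h5
        rcases mul_eq_zero.1 h5.symm with h7 | h7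
        · exfalso
          have : d - 1 = 0 := by exact_mod_cast h7
          omega
        · exact h7
      · intro j _ hj
        rw [map_mul, eval_X, Pi.single_eq_of_ne hj, zero_mul]
      · intro h
        exact absurd (Finset.mem_univ l) h
    have h4 := congrFun (hG.2 _ h3) l
    rw [Pi.single_eq_same, Pi.zero_apply] at h4
    exact one_ne_zero h4
  have hdv : ¬ G ∣ pderiv l G := by
    intro h
    have h3 := totalDegree_le_of_dvd_of_isDomain h hne
    rw [hG.1.totalDegree hP.ne_zero, (hG.1.pderiv (i := l)).totalDegree hne] at h3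
    omega
  have hdb : ¬ aeval (xb (k := k)) G ∣ gr G xb l := by
    intro h
    unfold gr at h
    rw [aeval_xb, aeval_xb] at h
    exact hdv (dvd_ren (τ := Fin 2) h)
  refine ⟨hne, hdv, hdb, fun h => hdb ?_⟩
  have h3 := (Polynomial.C_dvd_iff_dvd_coeff _ _).1 h 0
  rw [Polynomial.coeff_C_zero] at h3
  exact h3

end Pool.Agent.H42.SM
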