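import Pool.Agent.H84.SM.Targets

/-!
# Forms of large degree are in the powers of the ideal of the derivatives
-/

set_option autoImplicit false

namespace Pool.Agent.H42.SM

open MvPolynomial Pool.Agent.H84.SM

theorem pf_PWR (hNUL : T_NUL) : T_PWR := by
  intro k _ _ _ G d hd hG
  obtain ⟨e0, he0⟩ := hNUL k G d hd hG 1
  refine ⟨e0, fun J => ?_⟩
  induction J with
  | zero =>
    intro e φ _ hφ
    refine ⟨fun _ => φ, fun _ => ?_, ?_⟩
    · rw [zero_mul, Nat.sub_zero]
      exact hφ
    · rw [Fintype.sum_unique, Finset.univ_eq_empty, Finset.prod_empty, mul_one]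
  | succ J ih =>
    intro e φ he hφ
    have hJ : (J + 1) * (d - 1) = J * (d - 1) + (d - 1) := by ring
    obtain ⟨a, ha, hφa⟩ := he0 e φ (by omega) hφ
    have h2 : ∀ i, ∃ b : (Fin J → Fin 3) → MvPolynomial (Fin 3) k,
        (∀ f, (b f).IsHomogeneous (e - 1 * (d - 1) - J * (d - 1))) ∧
          a i = ∑ f, b f * ∏ t, pderiv (f t) G := fun i =>
      ih (e - 1 * (d - 1)) (a i) (by omega) (ha i)
    choose b hb hab using h2
    refine ⟨fun f => b (f 0) (Fin.tail f), fun f => ?_, ?_⟩
    · have : e - (J + 1) * (d - 1) = e - 1 * (d - 1) - J * (d - 1) := by omega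
      rw [this]
      exact hb _ _
    · rw [hφa]
      have h3 : ∑ f : Fin (J + 1) → Fin 3, b (f 0) (Fin.tail f) * ∏ t, pderiv (f t) G =
          ∑ p : Fin 3 × (Fin J → Fin 3), b p.1 p.2 * (pderiv p.1 G * ∏ t, pderiv (p.2 t) G) := by
        refine (Fintype.sum_equiv (Fin.consEquiv fun _ => Fin 3) _ _ fun p => ?_).symm
        have e1 : ((Fin.consEquiv fun _ => Fin 3) p : Fin (J + 1) → Fin 3) = Fin.cons p.1 p.2 :=
          rfl
        rw [e1, Fin.cons_zero, Fin.tail_cons, Fin.prod_univ_succ, Fin.cons_zero]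
        simp only [Fin.cons_succ]
      rw [h3, Fintype.sum_prod_type]
      refine Finset.sum_congr rfl fun i _ => ?_
      rw [hab i, pow_one, Finset.sum_mul]
      refine Finset.sum_congr rfl fun f _ => ?_
      ring

end Pool.Agent.H42.SM
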