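import Pool.Agent.H20.SM.TZ

/-!
# The conductor parameter of `q` for a totally complex field (row CQz)
-/

set_option autoImplicit false

open NumberField NumberField.InfinitePlace

namespace Pool.Agent.H42.SM

open Pool.Agent.H28.RC Pool.Agent.H25.HK Pool.Agent.H37.CV Pool.Agent.H65.CRZ
  Pool.Agent.H65.CRG

private theorem cqz_nm (K : Type) [Field K] [NumberField K] (q : ℕ) :
    nm (qi K q) = (q : ℝ) ^ Module.finrank ℚ K := by
  have h := Ideal.absNorm_span_natCast (S := 𝓞 K) q
  rw [RingOfIntegers.rank] at h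
  rw [nm, qi, h]
  push_cast
  rfl

theorem pf_CQz : Pool.Agent.H20.SM.T_CQz := by
  intro K _ _ _
  have h := card_add_two_mul_card_eq_rank K
  rw [IsTotallyComplex.nrRealPlaces_eq_zero] at h
  have hpos : 0 < Module.finrank ℚ K := Module.finrank_pos
  have hf : Module.finrank ℚ K = 2 * nrComplexPlaces K := by omega
  refine ⟨by omega, hf, Real.sqrt |(discr K : ℝ)| / (2 * Real.pi) ^ nrComplexPlaces K, ?_, ?_⟩
  · have hd : (discr K : ℝ) ≠ 0 := by exact_mod_cast discr_ne_zero K
    have h1 : 0 < Real.sqrt |(discr K : ℝ)| := Real.sqrt_pos.2 (abs_pos.2 hd)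
    exact div_pos h1 (by positivity)
  · intro q _
    refine ⟨?_, cqz_nm K q⟩
    have e : (q : ℝ) ^ Module.finrank ℚ K = ((q : ℝ) ^ nrComplexPlaces K) ^ 2 := by
      rw [hf, ← pow_mul, mul_comm]
    rw [cB, cnd, cqz_nm K q, e, Real.sqrt_mul (abs_nonneg _),
      Real.sqrt_sq (pow_nonneg (Nat.cast_nonneg q) _)]
    ring

end Pool.Agent.H42.SM
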