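import Pool.Agent.H20.SM.TT
import Pool.Agent.H37.SM.SMq
import Pool.Agent.H91.CRZ.B

/-!
# Row FMt: the first moment at the height `t`
-/

set_option autoImplicit false

open NumberField NumberField.InfinitePlace Complex Filter Topology MeasureTheory

namespace Pool.Agent.H42.SM

open Pool.Agent.H28.RC Pool.Agent.H25.HK Pool.Agent.H37.CV Pool.Agent.H65.CRZ
  Pool.Agent.H65.CRG Pool.Agent.H20.SM

/-- the trivial bound of the mollifier at the height `t` -/
private theorem fmt_pol {K : Type} [Field K] [NumberField K] (M t : ℝ) (hM : 1 ≤ M)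
    (χ : RCC K) : ‖pol M (cu K M t) χ.ψ‖ ≤ M * GS np (PM K M) M := by
  refine le_trans ?_ (card_DM_le M)
  rw [pol]
  refine (norm_sum_le _ _).trans ?_
  rw [Finset.card_eq_sum_ones, Nat.cast_sum]
  refine Finset.sum_le_sum fun S hS => ?_
  rw [norm_mul, cu, norm_mul, Nat.cast_one]
  have hSA : S ⊆ PM K M := by
    rw [DM, DS, Finset.mem_filter, Finset.mem_powerset] at hS
    exact hS.1
  have h1 : ‖(xw K M S : ℂ)‖ ≤ 1 := by
    rw [Complex.norm_real, Real.norm_eq_abs]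
    exact (a_CX (PrI K) np (PM K M) M two_le_np hM).2.2 S hSA
  have h2 := norm_RCC_le χ (idS S)
  have h3 : ‖((nS np S : ℝ) : ℂ) ^ (-(1 / 2 + t * I))‖ ≤ 1 := by
    have h4 := nS_ge_one S
    rw [Complex.norm_cpow_eq_rpow_re_of_pos (by linarith)]
    have h5 : (-(1 / 2 + (t : ℂ) * I)).re = -(1 / 2) := by simp
    rw [h5]
    exact Real.rpow_le_one_of_one_le_of_nonpos h4 (by norm_num)
  calc _ ≤ (1 : ℝ) * 1 * 1 := by gcongr
    _ = 1 := by norm_num

private theorem fmt_ncard {α : Type} (s : Set α) : (∑ᶠ i ∈ s, (1 : ℂ)) = (s.ncard : ℂ) := by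
  by_cases hs : s.Finite
  · rw [finsum_mem_eq_finite_toFinset_sum _ hs, Finset.sum_const, nsmul_eq_mul, mul_one,
      Set.ncard_eq_toFinset_card _ hs]
  · rw [Set.Infinite.ncard hs]
    rw [finsum_mem_eq_zero_of_infinite]
    · simp
    · rw [Function.support_const (one_ne_zero)]
      simpa using hs

open scoped Classical in
theorem pf_FMt (hIE : T_IEq) (hNCR : T_NCR) (hPAR : T_PAR) (hSND : T_SND) (hAF1 : T_AF1t)
    (hFMO : T_FMOt) (hF1 : T_F1t) : T_FMt := by
  intro F _ _ _ _ A ε₁ η T' hA1 hε0 hε1 hη hT'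
  set n : ℕ := Module.finrank ℚ F with hn
  have hn1 : 1 ≤ n := Module.finrank_pos
  obtain ⟨C0, E, hC0, hE, hNCR⟩ := hNCR F
  obtain ⟨C₁, hC1⟩ := hAF1 F 32 T' (by norm_num) hT'
  obtain ⟨C₂, -, hC2, -⟩ := a_GU F
  set κ : ℝ := η / 4 with hκ
  have hκ0 : 0 < κ := by positivity
  obtain ⟨x₁, hx1⟩ := hF1 F A ε₁ κ hA1 hε0 hε1 hκ0
  obtain ⟨x₃, hx3⟩ := hNCR A
  obtain ⟨x₄, hx4⟩ := hPAR F A
  obtain ⟨x₅, hx5⟩ := hSND n A
  obtain ⟨x₆, hx6e, hx6⟩ := Pool.Agent.H37.SM.SMq.num (n := n) (A := A) 0 hn1 hA1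
    (ε₁ := 1 / 4) (by norm_num) (by norm_num) (η := κ) (D0 := 1) (C := 0)
    (C0 * |C₁| * (2 * |C₂|)) hκ0 le_rfl le_rfl
  refine ⟨max (max x₁ x₃) (max x₄ (max x₅ x₆)), fun x q hx hSp t ht => ?_⟩
  have hxa : x₁ ≤ x := ((le_max_left _ _).trans (le_max_left _ _)).trans hx
  have hxc : x₃ ≤ x := ((le_max_right _ _).trans (le_max_left _ _)).trans hx
  have hxd : x₄ ≤ x := ((le_max_left _ _).trans (le_max_right _ _)).trans hx
  have hxe : x₅ ≤ x := (((le_max_left _ _).trans (le_max_right _ _)).trans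
    (le_max_right _ _)).trans hx
  have hxf : x₆ ≤ x := (((le_max_right _ _).trans (le_max_right _ _)).trans
    (le_max_right _ _)).trans hx
  have hxexp : Real.exp 1 ≤ x := hx6e.trans hxf
  have hx0 : 0 < x := (Real.exp_pos 1).trans_le hxexp
  have hlx : 1 ≤ Real.log x := by
    rw [Real.le_log_iff_exp_le hx0]
    exact hxexp
  -- the parameters
  obtain ⟨hq1, hq2, hrc, hlog⟩ := hx4 x q hxd hSp
  have hlogq : 0 < Real.log q := by
    have : 0 < Real.log x ^ (A + 1) / 2 := by positivity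
    linarith
  have hq2' : 2 ≤ q := by
    by_contra hcon
    have h1 : q = 0 ∨ q = 1 := by omega
    rcases h1 with h1 | h1 <;> rw [h1] at hlogq <;> simp at hlogq
  have hbot := Pool.Agent.H37.SM.SMq.qi_ne_bot' F q hq2'
  have htopq := Pool.Agent.H37.SM.SMq.qi_ne_top' F q hq2'
  obtain ⟨hL1, hL2⟩ := hx1 x q hxa hSp t
  obtain ⟨hNpos', -, hnc⟩ := hx3 x q hxc hSp
  set m : Ideal (𝓞 F) := qi F q with hm
  have hnm0 : 0 < nm m := by
    rw [nm]
    exact_mod_cast Nat.pos_of_ne_zero (by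
      rw [Ne, Ideal.absNorm_eq_zero_iff]; exact hbot)
  set L : ℝ := Real.log (nm m) with hL
  rw [← hn] at hlog hrc
  have hnr : (1 : ℝ) ≤ n := by exact_mod_cast hn1
  obtain ⟨hL0, hM0, -, -, -, hcard, hx8⟩ := hx6 x L hxf
    (by rw [hlog]; exact mul_le_mul_of_nonneg_left hq1 (by linarith))
    (by rw [hlog]; exact mul_le_mul_of_nonneg_left hq2 (by linarith))
  have hnmL : nm m = Real.exp L := (Real.exp_log hnm0).symm
  set M : ℝ := Mo F ε₁ q with hM
  set Q : ℝ := cnd F m with hQ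
  have hME : M = Real.exp ((1 / 2 - ε₁) * L) := by
    rw [hM, Mo, ← hm, Real.rpow_def_of_pos hnm0, ← hL]
    congr 1
    ring
  have hg0 : 0 < 1 / 2 - ε₁ := by linarith
  have hM1 : 1 ≤ M := by
    rw [hME]
    exact Real.one_le_exp (by positivity)
  have hD1 : (1 : ℝ) ≤ |(discr F : ℝ)| := by
    have h1 : (1 : ℤ) ≤ |discr F| := Int.one_le_abs (discr_ne_zero F)
    exact_mod_cast h1
  have hQE : Q = |(discr F : ℝ)| * nm m := rfl
  have hnm1 : 1 ≤ nm m := by
    rw [hnmL]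
    exact Real.one_le_exp hL0.le
  have hnQ : nm m ≤ Q := by
    rw [hQE]
    exact le_mul_of_one_le_left hnm0.le hD1
  have hQ1 : 1 ≤ Q := hnm1.trans hnQ
  have hQ0 : 0 < Q := by linarith
  have hMQ : M ≤ Q := by
    refine le_trans ?_ hnQ
    rw [hME, hnmL]
    apply Real.exp_le_exp.2
    nlinarith
  have hEQ : Real.exp (1 / 32 * L) ≤ Q := by
    refine le_trans ?_ hnQ
    rw [hnmL]
    apply Real.exp_le_exp.2
    linarith
  have hMQ0 : C0 * |C₁| * (2 * |C₂|) ≤ Q := by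
    refine hM0.trans (le_trans ?_ hnQ)
    rw [hnmL]
    apply Real.exp_le_exp.2
    linarith
  set X : ℝ := Xr F q with hX
  have hXE : X = Q ^ (9 / 8 : ℝ) := rfl
  have hX0 : 0 < X := by rw [hXE]; exact Real.rpow_pos_of_pos hQ0 _
  -- characters
  obtain ⟨hfin, T, σ, hT1, hσ1, hT2, hT3, hsum⟩ := hIE F q hSp.sq
  rw [← hm] at hfin hT1 hσ1 hT2 hsum
  rw [← hn] at hT3
  set N : ℝ := (nc m m : ℝ) with hN
  have hNpos : 0 < N := by
    rw [hN]
    exact_mod_cast hNpos'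
  set Lf : Ideal (𝓞 F) → ℂ := fun d => ∑' k : {k : Ideal (𝓞 F) // (k, ⊤) ∈ CP m d},
    lam X M k.1 * ((nm k.1 : ℝ) : ℂ) ^ (-(1 / 2 + t * I)) with hLf
  have hL1' : ‖Lf m - 1‖ ≤ κ := hL1
  have hL2' : ∀ d : Ideal (𝓞 F), m ≤ d → d ≠ m → (nc m d : ℝ) * ‖Lf d‖ ≤
      N * (x ^ (1 / 8 : ℝ) * pd q d ^ (-(3 / 4) : ℝ) + nm m ^ (-(1 / 32) : ℝ)) := hL2
  have hmem : ∀ d ∈ T.erase m, Pd q d ∈ q.primeFactors.powerset.erase ∅ := by
    intro d hd
    rw [Finset.mem_erase] at hd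
    rw [Finset.mem_erase, Finset.mem_powerset]
    refine ⟨((hT2 d hd.2).2.2 hd.1).ne_empty, ?_⟩
    unfold Pd
    exact Finset.filter_subset _ _
  have hmem' : ∀ d ∈ T, Pd q d ∈ q.primeFactors.powerset := by
    intro d hd
    rw [Finset.mem_powerset]
    unfold Pd
    exact Finset.filter_subset _ _
  have hS1 : ∑ d ∈ T.erase m, pd q d ^ (-(3 / 4) : ℝ) ≤ x ^ (-(1 / 4) : ℝ) := by
    rw [← Finset.sum_fiberwise_of_maps_to hmem]
    refine le_trans (Finset.sum_le_sum fun R hR => ?_) (hx5 x q.primeFactors hxe hSp.low hSp.hi)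
    have h1 : ∀ d ∈ (T.erase m).filter (fun d => Pd q d = R),
        pd q d ^ (-(3 / 4) : ℝ) = (∏ p ∈ R, (p : ℝ)) ^ (-(3 / 4) : ℝ) := by
      intro d hd
      rw [Finset.mem_filter] at hd
      rw [pd, hd.2]
    rw [Finset.sum_congr rfl h1, Finset.sum_const, nsmul_eq_mul]
    refine mul_le_mul_of_nonneg_right ?_ (Real.rpow_nonneg (Finset.prod_nonneg fun p _ =>
      Nat.cast_nonneg _) _)
    have h2 : ((T.erase m).filter (fun d => Pd q d = R)).card ≤ 2 ^ (n * R.card) :=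
      (Finset.card_le_card (Finset.filter_subset_filter _ (Finset.erase_subset _ _))).trans
        (hT3 R)
    exact_mod_cast h2
  have hTc : (T.card : ℝ) * Real.exp (-(1 / 32) * L) ≤ κ := by
    have h1 : T.card ≤ 2 ^ ((n + 1) * q.primeFactors.card) := by
      calc T.card = ∑ R ∈ q.primeFactors.powerset, (T.filter fun d => Pd q d = R).card :=
            Finset.card_eq_sum_card_fiberwise hmem'
        _ ≤ ∑ R ∈ q.primeFactors.powerset, 2 ^ (n * q.primeFactors.card) := by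
            refine Finset.sum_le_sum fun R hR => (hT3 R).trans ?_
            refine Nat.pow_le_pow_right (by norm_num) (Nat.mul_le_mul_left _ ?_)
            exact Finset.card_le_card (Finset.mem_powerset.1 hR)
        _ = 2 ^ ((n + 1) * q.primeFactors.card) := by
            rw [Finset.sum_const, Finset.card_powerset, smul_eq_mul, ← pow_add]
            congr 1
            ring
    have h3 := hcard q.primeFactors.card hSp.hi
    have h4 : (-(1 / 4 / 8 : ℝ)) = -(1 / 32) := by norm_num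
    rw [h4] at h3
    refine le_trans ?_ h3
    refine mul_le_mul_of_nonneg_right ?_ (Real.exp_pos _).le
    exact_mod_cast h1
  have hS2 : ((T.erase m).card : ℝ) * nm m ^ (-(1 / 32) : ℝ) ≤ κ := by
    have h2 : nm m ^ (-(1 / 32) : ℝ) = Real.exp (-(1 / 32) * L) := by
      rw [Real.rpow_def_of_pos hnm0, ← hL]
      congr 1
      ring
    rw [h2]
    refine le_trans ?_ hTc
    refine mul_le_mul_of_nonneg_right ?_ (Real.exp_pos _).le
    exact_mod_cast Finset.card_le_card (Finset.erase_subset _ _)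
  have hTQ : (T.card : ℝ) ≤ κ * Q := by
    have h1 : Real.exp (-(1 / 32) * L) * Real.exp (1 / 32 * L) = 1 := by
      rw [← Real.exp_add]
      have : -(1 / 32) * L + 1 / 32 * L = 0 := by ring
      rw [this, Real.exp_zero]
    calc (T.card : ℝ) = (T.card : ℝ) * (Real.exp (-(1 / 32) * L) * Real.exp (1 / 32 * L)) := by
          rw [h1, mul_one]
      _ = ((T.card : ℝ) * Real.exp (-(1 / 32) * L)) * Real.exp (1 / 32 * L) := by ring
      _ ≤ κ * Q := mul_le_mul hTc hEQ (Real.exp_pos _).le hκ0.le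
  -- the number of primitive characters
  have hcardP : ((Pr F m).ncard : ℝ) ≤ (κ * Q) * (C0 * N) := by
    have h2 := hsum (fun _ => 1)
    rw [fmt_ncard] at h2
    have h5 : ‖((Pr F m).ncard : ℂ)‖ ≤ ∑ d ∈ T, C0 * N := by
      rw [h2]
      refine (norm_sum_le _ _).trans (Finset.sum_le_sum fun d hd => ?_)
      obtain ⟨hd1, hd2, hd3⟩ := hT2 d hd
      rw [norm_mul, fmt_ncard, Complex.norm_natCast]
      have h3 : ‖(σ d : ℂ)‖ ≤ 1 := by
        rw [Complex.norm_intCast]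
        exact_mod_cast hd2
      have h4 : (nc m d : ℝ) ≤ C0 * N := by
        have h6 := (hnc d hd1).2.2
        have h7 : (1 : ℝ) ≤ pd q d := by
          rw [pd]
          calc (1 : ℝ) = ∏ p ∈ Pd q d, (1 : ℝ) := by rw [Finset.prod_const_one]
            _ ≤ ∏ p ∈ Pd q d, (p : ℝ) := by
                refine Finset.prod_le_prod (fun _ _ => zero_le_one) fun p hp => ?_
                have h8 : p ∈ q.primeFactors := by
                  unfold Pd at hp
                  exact (Finset.mem_filter.1 hp).1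
                exact_mod_cast (Nat.prime_of_mem_primeFactors h8).one_lt.le
        have h9 : (nc m d : ℝ) * 1 ≤ (nc m d : ℝ) * pd q d :=
          mul_le_mul_of_nonneg_left h7 (Nat.cast_nonneg _)
        rw [mul_one] at h9
        exact h9.trans h6
      calc ‖(σ d : ℂ)‖ * ((Ch m d).ncard : ℝ) ≤ 1 * ((Ch m d).ncard : ℝ) :=
            mul_le_mul_of_nonneg_right h3 (Nat.cast_nonneg _)
        _ = (nc m d : ℝ) := by rw [one_mul]; rfl
        _ ≤ C0 * N := h4
    rw [Complex.norm_natCast, Finset.sum_const, nsmul_eq_mul] at h5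
    refine h5.trans ?_
    have : 0 ≤ C0 * N := by positivity
    exact mul_le_mul_of_nonneg_right hTQ this
  -- the sums
  have hall : (∑ᶠ χ ∈ Pr F m, A1t X t χ.ψ * pol M (cu F M t) χ.ψ) =
      ∑ d ∈ T, (σ d : ℂ) * (nc m d * Lf d) := by
    rw [hsum (fun ψ => A1t X t ψ * pol M (cu F M t) ψ)]
    exact Finset.sum_congr rfl fun d hd => by
      rw [(hFMO F m d X M t hbot (hT2 d hd).1 hX0 hM1).2]
  have hdiff : ‖(∑ᶠ χ ∈ Pr F m, Zx χ (1 / 2 + t * I) * pol M (cu F M t) χ.ψ) -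
      ∑ᶠ χ ∈ Pr F m, A1t X t χ.ψ * pol M (cu F M t) χ.ψ‖ ≤ κ * N := by
    rw [finsum_mem_eq_finite_toFinset_sum _ hfin, finsum_mem_eq_finite_toFinset_sum _ hfin,
      ← Finset.sum_sub_distrib]
    have h2 : ∀ χ ∈ hfin.toFinset, ‖Zx χ (1 / 2 + t * I) * pol M (cu F M t) χ.ψ -
        A1t X t χ.ψ * pol M (cu F M t) χ.ψ‖ ≤ (|C₁| * (2 * |C₂|)) * Q ^ (-2 : ℝ) := by
      intro χ hχ
      have hχ' : χ.f = m := (Set.Finite.mem_toFinset hfin).1 hχ
      have hf : χ.f ≠ ⊤ := by rw [hχ']; exact htopq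
      have h3 := hC1 χ hf (Zx χ) (Pool.Agent.H91.CRZ.Zx_ent F χ hf) X t hX0 ht
      rw [hχ', ← hQ] at h3
      rw [← sub_mul, norm_mul]
      have h4 : (Q / X) ^ 32 = Q ^ (-4 : ℝ) := by
        have h5 : Q / X = Q ^ (-(1 / 8) : ℝ) := by
          have h6 : Q / X = Q ^ (1 : ℝ) / Q ^ (9 / 8 : ℝ) := by rw [Real.rpow_one, hXE]
          rw [h6, ← Real.rpow_sub hQ0]
          congr 1
          norm_num
        rw [h5, ← Real.rpow_natCast, ← Real.rpow_mul hQ0.le]
        congr 1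
        norm_num
      have h5 : ‖pol M (cu F M t) χ.ψ‖ ≤ Q * (|C₂| * (2 * Q)) := by
        refine (fmt_pol M t hM1 χ).trans ?_
        have h6 : GS np (PM F M) M ≤ |C₂| * (2 * Q) := by
          refine (hC2 M hM1).trans ?_
          have h7 : 1 + Real.log M ≤ 2 * Q := by
            have h8 : Real.log M ≤ Q := by
              calc Real.log M ≤ M - 1 := Real.log_le_sub_one_of_pos (by linarith)
                _ ≤ Q := by linarith
            linarith
          have h8 : 0 ≤ 1 + Real.log M := by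
            have := Real.log_nonneg hM1
            linarith
          exact mul_le_mul (le_abs_self _) h7 h8 (abs_nonneg _)
        have h9 : 0 ≤ GS np (PM F M) M := by
          rw [GS]
          exact Finset.sum_nonneg fun S _ => (inv_pos.2 (fS_pos S)).le
        exact mul_le_mul hMQ h6 h9 hQ0.le
      calc ‖Zx χ (1 / 2 + t * I) - A1t X t χ.ψ‖ * ‖pol M (cu F M t) χ.ψ‖
          ≤ (|C₁| * Q ^ (-4 : ℝ)) * (Q * (|C₂| * (2 * Q))) := by
            refine mul_le_mul (h3.trans ?_) h5 (norm_nonneg _) (by positivity)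
            rw [h4]
            exact mul_le_mul_of_nonneg_right (le_abs_self _) (by positivity)
        _ = (|C₁| * (2 * |C₂|)) * (Q ^ (-4 : ℝ) * Q ^ (2 : ℕ)) := by ring
        _ = (|C₁| * (2 * |C₂|)) * Q ^ (-2 : ℝ) := by
            rw [← Real.rpow_natCast, ← Real.rpow_add hQ0]
            norm_num
    refine (norm_sum_le _ _).trans ((Finset.sum_le_sum h2).trans ?_)
    rw [Finset.sum_const, nsmul_eq_mul, ← Set.ncard_eq_toFinset_card _ hfin]
    have h6 : Q * Q ^ (-2 : ℝ) = Q⁻¹ := by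
      calc Q * Q ^ (-2 : ℝ) = Q ^ (1 : ℝ) * Q ^ (-2 : ℝ) := by rw [Real.rpow_one]
        _ = Q ^ (-1 : ℝ) := by
            rw [← Real.rpow_add hQ0]
            norm_num
        _ = Q⁻¹ := Real.rpow_neg_one Q
    calc ((Pr F m).ncard : ℝ) * ((|C₁| * (2 * |C₂|)) * Q ^ (-2 : ℝ))
        ≤ ((κ * Q) * (C0 * N)) * ((|C₁| * (2 * |C₂|)) * Q ^ (-2 : ℝ)) := by
          gcongr
      _ = κ * N * ((C0 * |C₁| * (2 * |C₂|)) * (Q * Q ^ (-2 : ℝ))) := by ring
      _ = κ * N * ((C0 * |C₁| * (2 * |C₂|)) * Q⁻¹) := by rw [h6]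
      _ ≤ κ * N * 1 := by
          refine mul_le_mul_of_nonneg_left ?_ (by positivity)
          rw [← div_eq_mul_inv, div_le_one hQ0]
          exact hMQ0
      _ = κ * N := mul_one _
  have hB : ‖(∑ d ∈ T, (σ d : ℂ) * (nc m d * Lf d)) - N‖ ≤ κ * N + 2 * κ * N := by
    have h2 : (∑ d ∈ T, (σ d : ℂ) * (nc m d * Lf d)) - N =
        (N : ℂ) * (Lf m - 1) + ∑ d ∈ T.erase m, (σ d : ℂ) * (nc m d * Lf d) := by
      rw [← Finset.add_sum_erase T _ hT1, hσ1, Int.cast_one, one_mul]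
      have h3 : ((nc m m : ℕ) : ℂ) = (N : ℂ) := by rw [hN]; push_cast; rfl
      rw [h3]
      ring
    rw [h2]
    refine (norm_add_le _ _).trans (add_le_add ?_ ?_)
    · rw [norm_mul, Complex.norm_real, Real.norm_eq_abs, abs_of_pos hNpos, mul_comm]
      exact mul_le_mul_of_nonneg_right hL1' hNpos.le
    · have h3 : ∀ d ∈ T.erase m, ‖(σ d : ℂ) * (nc m d * Lf d)‖ ≤
          N * (x ^ (1 / 8 : ℝ) * pd q d ^ (-(3 / 4) : ℝ) + nm m ^ (-(1 / 32) : ℝ)) := by
        intro d hd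
        rw [Finset.mem_erase] at hd
        obtain ⟨hd1, hd2, hd3⟩ := hT2 d hd.2
        rw [norm_mul, norm_mul, Complex.norm_natCast]
        have h3 : ‖(σ d : ℂ)‖ ≤ 1 := by
          rw [Complex.norm_intCast]
          exact_mod_cast hd2
        have h4 := hL2' d hd1 hd.1
        calc ‖(σ d : ℂ)‖ * ((nc m d : ℝ) * ‖Lf d‖) ≤ 1 * ((nc m d : ℝ) * ‖Lf d‖) :=
              mul_le_mul_of_nonneg_right h3 (by positivity)
          _ ≤ _ := by rw [one_mul]; exact h4
      refine (norm_sum_le _ _).trans ((Finset.sum_le_sum h3).trans ?_)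
      rw [← Finset.mul_sum, Finset.sum_add_distrib, ← Finset.mul_sum, Finset.sum_const,
        nsmul_eq_mul]
      have h5 : x ^ (1 / 8 : ℝ) * ∑ d ∈ T.erase m, pd q d ^ (-(3 / 4) : ℝ) ≤ κ := by
        calc x ^ (1 / 8 : ℝ) * ∑ d ∈ T.erase m, pd q d ^ (-(3 / 4) : ℝ)
            ≤ x ^ (1 / 8 : ℝ) * x ^ (-(1 / 4) : ℝ) :=
              mul_le_mul_of_nonneg_left hS1 (by positivity)
          _ = x ^ (-(1 / 8) : ℝ) := by
              rw [← Real.rpow_add hx0]
              congr 1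
              norm_num
          _ ≤ κ := hx8
      have h6 : N * (x ^ (1 / 8 : ℝ) * ∑ d ∈ T.erase m, pd q d ^ (-(3 / 4) : ℝ) +
          ((T.erase m).card : ℝ) * nm m ^ (-(1 / 32) : ℝ)) ≤ N * (κ + κ) :=
        mul_le_mul_of_nonneg_left (add_le_add h5 hS2) hNpos.le
      refine h6.trans (le_of_eq ?_)
      ring
  have hk1 : 4 * (κ * N) = η * N := by
    rw [hκ]
    ring
  have h2 : (∑ᶠ χ ∈ Pr F m, Zx χ (1 / 2 + t * I) * pol M (cu F M t) χ.ψ) - N =
      ((∑ᶠ χ ∈ Pr F m, Zx χ (1 / 2 + t * I) * pol M (cu F M t) χ.ψ) -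
        ∑ᶠ χ ∈ Pr F m, A1t X t χ.ψ * pol M (cu F M t) χ.ψ) +
      ((∑ d ∈ T, (σ d : ℂ) * (nc m d * Lf d)) - N) := by
    rw [hall]
    ring
  have h3 : ((nc m m : ℕ) : ℂ) = (N : ℂ) := by rw [hN]; push_cast; rfl
  rw [h3, h2]
  refine (norm_add_le _ _).trans ?_
  have h4 := add_le_add hdiff hB
  refine h4.trans (le_of_eq ?_)
  rw [← hk1]
  ring

end Pool.Agent.H42.SM
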