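import Pool.Agent.H20.SM.TZ
import Pool.Agent.H36.CRG.VG
import Pool.Agent.H38.CRZ.G1
import Pool.Agent.H1.CRZ.SA
import Pool.Agent.H2.PZ.VV
import Pool.Agent.H58.MZ.SH

/-!
# Row VBz: the weights of the approximate functional equation are bounded
-/

set_option autoImplicit false

open Complex Filter Topology MeasureTheory

namespace Pool.Agent.H42.SM

open Pool.Agent.H65.CRZ
open Pool.Agent.H1.CRZ (line)
open Pool.Agent.H65.CRG (Vn)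

private theorem vbz_exp (n : ℕ) (t : ℝ) :
    Real.exp (8 + 4 * n * |t| - 2 * t ^ 2) ≤
    Real.exp (8 + (4 * n + 1) ^ 2) * Real.exp (-|t|) := by
  rw [← Real.exp_add]
  apply Real.exp_le_exp.mpr
  have h7 : t ^ 2 = |t| ^ 2 := (sq_abs t).symm
  rw [h7]
  have hn : (0 : ℝ) ≤ n := Nat.cast_nonneg n
  nlinarith [sq_nonneg ((4 * n + 1 : ℝ) - 2 * |t|), sq_nonneg ((4 * n + 1 : ℝ) - |t|),
    sq_nonneg |t|, abs_nonneg t]

/-- the bound near `0` -/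
private theorem vbz_one (h0 : Pool.Agent.H65.CRZ.T_G1) (n : ℕ) :
    ∃ C B : ℝ, 0 < C ∧ 0 ≤ B ∧ ∀ s₁ s₂ : ℂ, 1 / 4 ≤ s₁.re →
    s₁.re ≤ 3 / 4 → 1 / 4 ≤ s₂.re → s₂.re ≤ 3 / 4 → ∀ x : ℝ, 0 < x → x ≤ 1 →
      ‖Vn n s₁ s₂ x‖ ≤ C * (1 + |s₁.im| + |s₂.im|) ^ B := by
  obtain ⟨C₁, B₁, hC₁, hB₁, hG⟩ := h0 2
  set D : ℝ := Real.exp (8 + (4 * n + 1) ^ 2) with hD
  have hD0 : 0 < D := Real.exp_pos _
  set C₃ : ℝ := (C₁ ^ 2) ^ n * D with hC₃
  have hC₃0 : 0 < C₃ := by positivity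
  set J : ℝ := ∫ t : ℝ, Real.exp (-|t|) with hJ
  have hJ0 : 0 ≤ J := integral_nonneg fun t => (Real.exp_pos _).le
  refine ⟨1 + C₃ * 8 * J, 2 * B₁ * n, by positivity, by positivity, ?_⟩
  intro s₁ s₂ hs₁a hs₁b hs₂a hs₂b x hx hx1
  have hxc : (x : ℂ) ≠ 0 := by exact_mod_cast hx.ne'
  obtain ⟨S, hS⟩ : ∃ S : ℝ, S = 1 + |s₁.im| + |s₂.im| := ⟨_, rfl⟩
  have hS1 : 1 ≤ S := by
    rw [hS]
    linarith [abs_nonneg s₁.im, abs_nonneg s₂.im]
  have hΓ₁ : Gamma s₁ ≠ 0 := Complex.Gamma_ne_zero_of_re_pos (by linarith)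
  have hΓ₂ : Gamma s₂ ≠ 0 := Complex.Gamma_ne_zero_of_re_pos (by linarith)
  have hGqd : ∀ w : ℂ, (-(1 / 8) : ℝ) ≤ w.re → DifferentiableAt ℂ (Gq s₁ s₂) w := by
    intro w hw
    have e1 : DifferentiableAt ℂ (fun w : ℂ => Gamma (s₁ + w)) w := by
      have e2 : DifferentiableAt ℂ Gamma (s₁ + w) := by
        apply Complex.differentiableAt_Gamma
        intro m hm
        have := congrArg Complex.re hm
        simp at this
        have hm0 : (0 : ℝ) ≤ m := Nat.cast_nonneg m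
        linarith
      exact e2.comp w (by fun_prop)
    have e3 : DifferentiableAt ℂ (fun w : ℂ => Gamma (s₂ + w)) w := by
      have e2 : DifferentiableAt ℂ Gamma (s₂ + w) := by
        apply Complex.differentiableAt_Gamma
        intro m hm
        have := congrArg Complex.re hm
        simp at this
        have hm0 : (0 : ℝ) ≤ m := Nat.cast_nonneg m
        linarith
      exact e2.comp w (by fun_prop)
    exact (e1.mul e3).div_const _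
  have hGqb : ∀ w : ℂ, (-(1 / 8) : ℝ) ≤ w.re → w.re ≤ 2 →
      ‖Gq s₁ s₂ w‖ ≤ C₁ ^ 2 * S ^ (2 * B₁) * Real.exp (4 * |w.im|) := by
    intro w hw1 hw2
    have e1 := hG s₁ w hs₁a hs₁b hw1 hw2
    have e2 := hG s₂ w hs₂a hs₂b hw1 hw2
    have n1 : 0 < ‖Gamma s₁‖ := norm_pos_iff.2 hΓ₁
    have n2 : 0 < ‖Gamma s₂‖ := norm_pos_iff.2 hΓ₂
    have e3 : (1 + |s₁.im|) ^ B₁ ≤ S ^ B₁ := by
      refine Real.rpow_le_rpow (by positivity) ?_ hB₁
      rw [hS]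
      linarith [abs_nonneg s₂.im]
    have e4 : (1 + |s₂.im|) ^ B₁ ≤ S ^ B₁ := by
      refine Real.rpow_le_rpow (by positivity) ?_ hB₁
      rw [hS]
      linarith [abs_nonneg s₁.im]
    unfold Gq
    rw [norm_div, norm_mul, norm_mul, div_le_iff₀ (mul_pos n1 n2)]
    have e5 : S ^ (2 * B₁) = S ^ B₁ * S ^ B₁ := by
      rw [two_mul, Real.rpow_add (by linarith)]
    have e6 : Real.exp (4 * |w.im|) = Real.exp (2 * |w.im|) * Real.exp (2 * |w.im|) := by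
      rw [← Real.exp_add]
      congr 1
      ring
    have e7 : ‖Gamma (s₁ + w)‖ ≤ C₁ * S ^ B₁ * Real.exp (2 * |w.im|) * ‖Gamma s₁‖ :=
      e1.trans (by gcongr)
    have e8 : ‖Gamma (s₂ + w)‖ ≤ C₁ * S ^ B₁ * Real.exp (2 * |w.im|) * ‖Gamma s₂‖ :=
      e2.trans (by gcongr)
    calc ‖Gamma (s₁ + w)‖ * ‖Gamma (s₂ + w)‖ ≤
          (C₁ * S ^ B₁ * Real.exp (2 * |w.im|) * ‖Gamma s₁‖) *
          (C₁ * S ^ B₁ * Real.exp (2 * |w.im|) * ‖Gamma s₂‖) :=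
          mul_le_mul e7 e8 (norm_nonneg _) ((norm_nonneg _).trans e7)
      _ = _ := by
          rw [e5, e6]
          ring
  have hGnb : ∀ w : ℂ, (-(1 / 8) : ℝ) ≤ w.re → w.re ≤ 2 →
      ‖Gq s₁ s₂ w ^ n‖ ≤ (C₁ ^ 2) ^ n * S ^ (2 * B₁ * n) * Real.exp (4 * n * |w.im|) := by
    intro w hw1 hw2
    rw [norm_pow]
    refine (pow_le_pow_left₀ (norm_nonneg _) (hGqb w hw1 hw2) n).trans (le_of_eq ?_)
    rw [mul_pow, mul_pow, Real.rpow_mul (by linarith) (2 * B₁) n, Real.rpow_natCast,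
      ← Real.exp_nat_mul]
    congr 2
    ring
  have hGq0 : Gq s₁ s₂ 0 = 1 := by
    unfold Gq
    rw [add_zero, add_zero]
    exact div_self (mul_ne_zero hΓ₁ hΓ₂)
  -- the function
  set Φ : ℂ → ℂ := fun w => Gq s₁ s₂ w ^ n * cexp (2 * w ^ 2) * (x : ℂ) ^ (-w) with hΦ
  have hΦd : ∀ w : ℂ, (-(1 / 8) : ℝ) ≤ w.re → w.re ≤ 2 → DifferentiableAt ℂ Φ w := by
    intro w hw1 _
    have e2 : DifferentiableAt ℂ (fun w : ℂ => cexp (2 * w ^ 2)) w := by fun_prop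
    exact (((hGqd w hw1).pow n).mul e2).mul ((differentiableAt_id.neg).const_cpow (Or.inl hxc))
  have hnx : ∀ w : ℂ, ‖(x : ℂ) ^ (-w)‖ = x ^ (-w.re) := fun w => by
    rw [Complex.norm_cpow_eq_rpow_re_of_pos hx, Complex.neg_re]
  have hΦb : ∀ w : ℂ, (-(1 / 8) : ℝ) ≤ w.re → w.re ≤ 2 →
      ‖Φ w‖ ≤ C₃ * S ^ (2 * B₁ * n) * x ^ (-w.re) * Real.exp (-|w.im|) := by
    intro w hw1 hw2
    have b3 : ‖cexp (2 * w ^ 2)‖ ≤ Real.exp (8 - 2 * w.im ^ 2) := by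
      rw [Complex.norm_exp]
      apply Real.exp_le_exp.mpr
      have e : (2 * w ^ 2).re = 2 * (w.re ^ 2 - w.im ^ 2) := by
        rw [sq w]
        simp only [mul_re, Complex.re_ofNat, Complex.im_ofNat, zero_mul, sub_zero]
        ring
      rw [e]
      nlinarith
    simp only [hΦ]
    rw [norm_mul, norm_mul, hnx]
    have hY' : 0 ≤ x ^ (-w.re) := (Real.rpow_pos_of_pos hx _).le
    calc ‖Gq s₁ s₂ w ^ n‖ * ‖cexp (2 * w ^ 2)‖ * x ^ (-w.re) ≤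
            ((C₁ ^ 2) ^ n * S ^ (2 * B₁ * n) * Real.exp (4 * n * |w.im|)) *
              Real.exp (8 - 2 * w.im ^ 2) * x ^ (-w.re) := by
          have := hGnb w hw1 hw2
          gcongr
      _ = (C₁ ^ 2) ^ n * S ^ (2 * B₁ * n) * x ^ (-w.re) *
            Real.exp (8 + 4 * n * |w.im| - 2 * w.im ^ 2) := by
          rw [show 8 + 4 * n * |w.im| - 2 * w.im ^ 2 = 4 * n * |w.im| + (8 - 2 * w.im ^ 2) by ring,
            Real.exp_add]
          ring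
      _ ≤ (C₁ ^ 2) ^ n * S ^ (2 * B₁ * n) * x ^ (-w.re) *
            (D * Real.exp (-|w.im|)) :=
          mul_le_mul_of_nonneg_left (vbz_exp n w.im) (by positivity)
      _ = _ := by
          rw [hC₃]
          ring
  -- the shift
  set M : ℝ := C₃ * S ^ (2 * B₁ * n) * x ^ (-(2 : ℝ)) with hM
  have hΦM : ∀ w : ℂ, (-(1 / 8) : ℝ) ≤ w.re → w.re ≤ 2 → ‖Φ w‖ ≤ M * Real.exp (-|w.im|) := by
    intro w hw1 hw2
    refine (hΦb w hw1 hw2).trans ?_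
    have := Real.rpow_le_rpow_of_exponent_ge hx hx1 (show -(2 : ℝ) ≤ -w.re by linarith)
    rw [hM]
    gcongr
  have hSH := Pool.Agent.H58.MZ.sh Pool.Agent.H2.PZ.vv
  have hp1 : (0 : ℂ).re = 0 := rfl
  have hsh1 := hSH Φ (-(1 / 8)) 2 M 0 (by rw [hp1]; norm_num) (by rw [hp1]; norm_num) hΦd hΦM
  have hL1 := line Φ (-(1 / 8)) (C₃ * S ^ (2 * B₁ * n)) (1 / 8) 0 (by norm_num)
    (by rw [hp1, sub_zero, abs_neg, abs_of_pos (by norm_num)])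
    (fun s hs => hΦd s hs.ge (by rw [hs]; norm_num))
    (by
      intro s hs
      refine (hΦb s hs.ge (by rw [hs]; norm_num)).trans ?_
      have h5 : x ^ (-s.re) ≤ 1 := by
        rw [hs]
        exact Real.rpow_le_one hx.le hx1 (by norm_num)
      have h6 : 0 ≤ C₃ * S ^ (2 * B₁ * n) := by positivity
      calc C₃ * S ^ (2 * B₁ * n) * x ^ (-s.re) * Real.exp (-|s.im|) ≤
          C₃ * S ^ (2 * B₁ * n) * 1 * Real.exp (-|s.im|) := by gcongr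
        _ = _ := by rw [mul_one])
  have hΦ0 : Φ 0 = 1 := by
    simp only [hΦ]
    rw [hGq0]
    simp
  rw [hΦ0] at hsh1
  have hV : Vn n s₁ s₂ x = ((1 / (2 * Real.pi) : ℝ) : ℂ) *
      ∫ t : ℝ, Φ (((2 : ℝ) : ℂ) + t * I) / (((2 : ℝ) : ℂ) + t * I - 0) := by
    unfold Vn
    congr 1
    refine integral_congr_ae (Eventually.of_forall fun t => ?_)
    simp only [hΦ, sub_zero, Complex.ofReal_ofNat]
    ring
  have e1 := sub_eq_iff_eq_add.1 hsh1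
  rw [hV, e1]
  have hSp : 1 ≤ S ^ (2 * B₁ * n) := Real.one_le_rpow hS1 (by positivity)
  have hpi : 1 / (2 * Real.pi) ≤ 1 := by
    rw [div_le_one (by positivity)]
    linarith [Real.pi_gt_three]
  refine (norm_add_le _ _).trans ?_
  rw [norm_one, norm_mul, Complex.norm_real, Real.norm_of_nonneg (by positivity), ← hS]
  have e2 := hL1.2
  have e3 : C₃ * S ^ (2 * B₁ * n) / (1 / 8) * J = C₃ * 8 * J * S ^ (2 * B₁ * n) := by ring
  rw [← hJ, e3] at e2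
  calc _ ≤ 1 + 1 * (C₃ * 8 * J * S ^ (2 * B₁ * n)) := by
        gcongr
    _ ≤ S ^ (2 * B₁ * n) + 1 * (C₃ * 8 * J * S ^ (2 * B₁ * n)) := by linarith
    _ = _ := by ring

theorem pf_VBz : Pool.Agent.H20.SM.T_VBz := by
  intro n a ha
  have hG1 : Pool.Agent.H65.CRZ.T_G1 := Pool.Agent.H38.CRZ.pf_G1
  obtain ⟨C₁, B₁, hC₁, hB₁, h1⟩ := vbz_one hG1 n
  -- a bound with the exponent `a` for all `x`, and boundedness for `x ≥ 1`
  obtain ⟨C₂, B₂, hC₂, hB₂, h2⟩ := Pool.Agent.H36.CRG.pf_VG hG1 n (a + 1) (by linarith)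
  refine ⟨C₁ + C₂, max B₁ B₂, by positivity, le_trans hB₁ (le_max_left _ _), ?_⟩
  intro s₁ s₂ g1 g2 g3 g4 x hx
  obtain ⟨S, hS⟩ : ∃ S : ℝ, S = 1 + |s₁.im| + |s₂.im| := ⟨_, rfl⟩
  have hS1 : 1 ≤ S := by
    rw [hS]
    linarith [abs_nonneg s₁.im, abs_nonneg s₂.im]
  have k1 : S ^ B₁ ≤ S ^ max B₁ B₂ := Real.rpow_le_rpow_of_exponent_le hS1 (le_max_left _ _)
  have k2 : S ^ B₂ ≤ S ^ max B₁ B₂ := Real.rpow_le_rpow_of_exponent_le hS1 (le_max_right _ _)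
  have hSp : 0 < S ^ max B₁ B₂ := Real.rpow_pos_of_pos (by linarith) _
  rw [← hS]
  rcases le_total x 1 with hx1 | hx1
  · have e1 : min 1 (x ^ (-a)) = 1 := by
      apply min_eq_left
      exact Real.one_le_rpow_of_pos_of_le_one_of_nonpos hx hx1 (by linarith)
    rw [e1, mul_one]
    have h3 := h1 s₁ s₂ g1 g2 g3 g4 x hx hx1
    rw [← hS] at h3
    calc ‖Vn n s₁ s₂ x‖ ≤ C₁ * S ^ B₁ := h3
      _ ≤ C₁ * S ^ max B₁ B₂ := by gcongr
      _ ≤ (C₁ + C₂) * S ^ max B₁ B₂ := by gcongr; linarith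
  · have e0 : x ^ (-a) ≤ 1 := Real.rpow_le_one_of_one_le_of_nonpos hx1 (by linarith)
    rw [min_eq_right e0]
    obtain ⟨-, -, h3⟩ := h2 s₁ s₂ g1 g2 g3 g4 x hx
    rw [← hS] at h3
    have e2 : x ^ (-(a + 1)) ≤ x ^ (-a) :=
      Real.rpow_le_rpow_of_exponent_le hx1 (by linarith)
    have hxa : 0 < x ^ (-a) := Real.rpow_pos_of_pos hx _
    calc ‖Vn n s₁ s₂ x‖ ≤ C₂ * S ^ B₂ * x ^ (-(a + 1)) := h3
      _ ≤ C₂ * S ^ max B₁ B₂ * x ^ (-a) := by gcongr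
      _ ≤ (C₁ + C₂) * S ^ max B₁ B₂ * x ^ (-a) := by gcongr; linarith

end Pool.Agent.H42.SM
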