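import Pool.Agent.H20.SM.TT

/-!
# Row SMt: the second moment at the height `t`
-/

set_option autoImplicit false

open NumberField NumberField.InfinitePlace Complex Filter Topology MeasureTheory

namespace Pool.Agent.H42.SM

open Pool.Agent.H28.RC Pool.Agent.H25.HK Pool.Agent.H37.CV Pool.Agent.H65.CRZ
  Pool.Agent.H65.CRG Pool.Agent.H20.SM

/-- the special moduli are large -/
private theorem smt_q {F : Type} [Field F] [NumberField F] {A : ℕ} {x : ℝ} {q : ℕ}
    (h : Sp F A x q) (hx : Real.exp 1 ≤ x) : Real.sqrt x ≤ (q : ℝ) := by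
  have h1 : 1 ≤ Real.log x := by
    rw [Real.le_log_iff_exp_le ((Real.exp_pos 1).trans_le hx)]
    exact hx
  have h2 : (1 : ℝ) ≤ (q.primeFactors.card : ℝ) := (one_le_pow₀ h1).trans h.lo
  have h3 : 0 < q.primeFactors.card := by
    have : (0 : ℝ) < (q.primeFactors.card : ℝ) := by linarith
    exact_mod_cast this
  obtain ⟨p, hp⟩ := Finset.card_pos.1 h3
  have h4 := h.low p hp
  have h5 : p ≤ q := Nat.le_of_mem_primeFactors hp
  have h6 : (p : ℝ) ≤ q := by exact_mod_cast h5
  exact h4.trans h6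

/-- the main term as an entire function of the shift -/
private noncomputable def bb (L l : ℝ) (z : ℂ) : ℂ :=
  -(1 / (l : ℂ)) * dslope (fun w : ℂ => cexp (-(w * L))) 0 z + (1 + cexp (-(z * L))) / 2

private theorem bb_diff (L l : ℝ) : Differentiable ℂ (bb L l) := by
  have h1 : Differentiable ℂ (fun w : ℂ => cexp (-(w * L))) := by fun_prop
  have h2 : Differentiable ℂ (dslope (fun w : ℂ => cexp (-(w * L))) 0) := by
    have h3 := (Complex.differentiableOn_dslope (f := fun w : ℂ => cexp (-(w * L))) (c := 0)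
      (s := Set.univ) Filter.univ_mem).2 h1.differentiableOn
    exact fun z => (h3 z (Set.mem_univ z)).differentiableAt Filter.univ_mem
  unfold bb
  exact (h2.const_mul _).add ((h1.const_add 1).div_const 2)

private theorem bb_zero {L l : ℝ} (hl : l ≠ 0) : bb L l 0 = ((L / l + 1 : ℝ) : ℂ) := by
  have hd : deriv (fun w : ℂ => cexp (-(w * L))) 0 = -(L : ℂ) := by
    have h1 : HasDerivAt (fun w : ℂ => cexp (-(w * L))) (cexp (-(0 * L)) * -(1 * L)) 0 :=
      (((hasDerivAt_id (0 : ℂ)).mul_const (L : ℂ)).neg).cexp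
    rw [h1.deriv]
    simp
  have hlc : (l : ℂ) ≠ 0 := by exact_mod_cast hl
  unfold bb
  rw [dslope_same, hd]
  push_cast
  rw [zero_mul, neg_zero, Complex.exp_zero]
  field_simp
  ring

private theorem bb_ne {L l : ℝ} (hl : l ≠ 0) {z : ℂ} (hz : z ≠ 0) : bb L l z = Bm z 0 L l := by
  have hlc : (l : ℂ) ≠ 0 := by exact_mod_cast hl
  unfold bb Bm Pool.Agent.H65.CRZ.FF
  rw [dslope_of_ne _ hz, slope_def_field]
  simp only [zero_mul, neg_zero, Complex.exp_zero, sub_zero, add_zero, mul_zero, zero_div]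
  rw [neg_mul]
  field_simp
  ring

theorem pf_SMt (hB : T_Bz) (hCQ : T_CQz) (hIE : T_IEq) (hLF : T_LFz) : T_SMt := by
  intro F _ _ _ _
  obtain ⟨A₀, hA₀⟩ := hB F
  obtain ⟨hr, hn, c, hc, hcq⟩ := hCQ F
  obtain ⟨C, q₀, -, hLq⟩ := hLF F
  refine ⟨A₀, ?_⟩
  intro A ε₁ η T hA hε0 hε1 hη hT
  obtain ⟨B, hB0, hB1⟩ := hA₀ A ε₁ 1 1 hA hε0 hε1 one_pos one_pos
  have hTp : 0 < (1 + T) ^ B := Real.rpow_pos_of_pos (by linarith) _
  obtain ⟨x₁, hx₁⟩ := hB1 (η / (2 * (1 + T) ^ B)) (by positivity)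
  set g : ℝ := 1 / 2 - ε₁ with hg
  have hg0 : 0 < g := by rw [hg]; linarith
  set K : ℝ := max 1 (4 * |Real.log c| / (g * η)) with hK
  have hK1 : 1 ≤ K := le_max_left _ _
  have hK2 : 4 * |Real.log c| / (g * η) ≤ K := le_max_right _ _
  refine ⟨max x₁ (max ((q₀ : ℝ) ^ 2) (Real.exp (2 * K))), ?_⟩
  intro x q hx hSp t ht
  have hxa : x₁ ≤ x := (le_max_left _ _).trans hx
  have hxb : (q₀ : ℝ) ^ 2 ≤ x := ((le_max_left _ _).trans (le_max_right _ _)).trans hx
  have hxc : Real.exp (2 * K) ≤ x := ((le_max_right _ _).trans (le_max_right _ _)).trans hx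
  have hx0 : 0 < x := (Real.exp_pos _).trans_le hxc
  have hxe : Real.exp 1 ≤ x := (Real.exp_le_exp.2 (by linarith)).trans hxc
  have hqx := smt_q hSp hxe
  have hsx : 0 < Real.sqrt x := Real.sqrt_pos.2 hx0
  have hq0 : (0 : ℝ) < q := hsx.trans_le hqx
  have hlq : K ≤ Real.log q := by
    have h1 : Real.log (Real.sqrt x) ≤ Real.log q := Real.log_le_log hsx hqx
    have h2 : 2 * K ≤ Real.log x := (Real.le_log_iff_exp_le hx0).2 hxc
    rw [Real.log_sqrt hx0.le] at h1
    linarith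
  have hlq0 : 0 < Real.log q := by linarith
  have hqq : q₀ ≤ q := by
    have h1 : (q₀ : ℝ) ≤ Real.sqrt x := Real.le_sqrt_of_sq_le hxb
    exact_mod_cast h1.trans hqx
  have hq1 : 1 ≤ q := by exact_mod_cast hq0
  obtain ⟨hcB, hnm⟩ := hcq q hq1
  -- the parameters
  set L : ℝ := Lg F q with hL
  set l : ℝ := Real.log (Mo F ε₁ q) with hl
  have hn1 : (1 : ℝ) ≤ (Module.finrank ℚ F : ℝ) := by
    have : 1 ≤ Module.finrank ℚ F := Module.finrank_pos
    exact_mod_cast this
  have hLe : L = 2 * Real.log c + Module.finrank ℚ F * Real.log q := by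
    rw [hL, Lg, hcB, Real.log_mul hc.ne' (by positivity), Real.log_pow]
    have : (Module.finrank ℚ F : ℝ) = 2 * (nrComplexPlaces F : ℝ) := by
      rw [hn]
      push_cast
      ring
    rw [this]
    ring
  have hle : l = g * (Module.finrank ℚ F * Real.log q) := by
    rw [hl, Mo, hnm, Real.log_rpow (by positivity), Real.log_pow]
  have hl0 : 0 < l := by
    rw [hle]
    positivity
  have hLl : L / l ≤ 1 / g + η / 2 := by
    rw [div_le_iff₀ hl0, hLe, hle]
    have h1 : 2 * Real.log c ≤ η / 2 * (g * (Module.finrank ℚ F * Real.log q)) := by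
      have h2 : 4 * |Real.log c| ≤ K * (g * η) := by
        rw [div_le_iff₀ (by positivity)] at hK2
        exact hK2
      have h3 : Real.log c ≤ |Real.log c| := le_abs_self _
      have h4 : K * (g * η) ≤ Real.log q * (g * η) :=
        mul_le_mul_of_nonneg_right hlq (by positivity)
      have h5 : 1 * (Real.log q * (g * η)) ≤ Module.finrank ℚ F * (Real.log q * (g * η)) :=
        mul_le_mul_of_nonneg_right hn1 (by positivity)
      have h6 : η / 2 * (g * (Module.finrank ℚ F * Real.log q)) =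
          Module.finrank ℚ F * (Real.log q * (g * η)) / 2 := by ring
      rw [h6]
      linarith
    have h7 : (1 / g + η / 2) * (g * (Module.finrank ℚ F * Real.log q)) =
        Module.finrank ℚ F * Real.log q +
          η / 2 * (g * (Module.finrank ℚ F * Real.log q)) := by
      field_simp
    rw [h7]
    linarith
  -- the primitive characters
  obtain ⟨hfin, -⟩ := hIE F q hSp.sq
  have hent : ∀ χ ∈ Pr F (qi F q), Differentiable ℂ (Zx χ) := fun χ hχ =>
    ((hLq q hqq χ hχ).1).1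
  set N : ℝ := (nc (qi F q) (qi F q) : ℝ) with hN
  have hN0 : 0 ≤ N := Nat.cast_nonneg _
  set w : RCC F → ℝ := fun χ => ‖pol (Mo F ε₁ q) (cu F (Mo F ε₁ q) t) χ.ψ‖ ^ 2 with hw
  set G : ℂ → ℂ := fun z => (∑ χ ∈ hfin.toFinset, Zx χ (1 / 2 + z + t * I) *
    (starRingEnd ℂ) (Zx χ (1 / 2 + t * I)) * ((w χ : ℝ) : ℂ)) - (N : ℂ) * bb L l z with hG
  have hGd : Differentiable ℂ G := by
    have h1 : Differentiable ℂ (fun z : ℂ => ∑ χ ∈ hfin.toFinset, Zx χ (1 / 2 + z + t * I) *
        (starRingEnd ℂ) (Zx χ (1 / 2 + t * I)) * ((w χ : ℝ) : ℂ)) := by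
      apply Differentiable.fun_sum
      intro χ hχ
      have h2 := hent χ (hfin.mem_toFinset.1 hχ)
      have h3 : Differentiable ℂ (fun z : ℂ => Zx χ (1 / 2 + z + t * I)) :=
        h2.comp (by fun_prop)
      exact (h3.mul_const _).mul_const _
    exact h1.sub ((bb_diff L l).const_mul _)
  have hr0 : 0 < 1 / Real.log q := by positivity
  have hsph : ∀ z ∈ frontier (Metric.ball (0 : ℂ) (1 / Real.log q)), ‖G z‖ ≤ η / 2 * N := by
    intro z hz
    rw [frontier_ball (0 : ℂ) hr0.ne', mem_sphere_zero_iff_norm] at hz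
    have hz0 : z ≠ 0 := by
      intro h
      rw [h, norm_zero] at hz
      exact hr0.ne hz
    have h1 := hx₁ x q hxa hSp z 0 t hz.le (by rw [norm_zero]; exact hr0.le)
      (by rw [add_zero, hz])
    rw [finsum_mem_eq_finite_toFinset_sum _ hfin] at h1
    simp only [map_zero, add_zero] at h1
    have h2 : (η / (2 * (1 + T) ^ B)) * (1 + |t|) ^ B * N ≤ η / 2 * N := by
      have h3 : (1 + |t|) ^ B ≤ (1 + T) ^ B :=
        Real.rpow_le_rpow (by positivity) (by linarith) hB0
      have h4 : η / (2 * (1 + T) ^ B) * (1 + |t|) ^ B ≤ η / (2 * (1 + T) ^ B) * (1 + T) ^ B :=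
        mul_le_mul_of_nonneg_left h3 (by positivity)
      have h5 : η / (2 * (1 + T) ^ B) * (1 + T) ^ B = η / 2 := by
        field_simp
      rw [h5] at h4
      exact mul_le_mul_of_nonneg_right h4 hN0
    refine le_trans (le_of_eq ?_) (h1.trans h2)
    simp only [hG]
    rw [bb_ne hl0.ne' hz0, hN, Complex.ofReal_natCast]
  have hmax := Complex.norm_le_of_forall_mem_frontier_norm_le Metric.isBounded_ball
    hGd.diffContOnCl hsph (subset_closure (Metric.mem_ball_self hr0))
  have hG0 : G 0 = (((∑ χ ∈ hfin.toFinset, ‖Zx χ (1 / 2 + t * I)‖ ^ 2 * w χ) -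
      N * (L / l + 1) : ℝ) : ℂ) := by
    simp only [hG]
    rw [bb_zero hl0.ne']
    push_cast
    congr 1
    refine Finset.sum_congr rfl fun χ _ => ?_
    rw [add_zero, Complex.mul_conj, Complex.normSq_eq_norm_sq]
    push_cast
    ring
  rw [hG0, Complex.norm_real, Real.norm_eq_abs] at hmax
  have h1 := (abs_le.1 hmax).2
  rw [finsum_mem_eq_finite_toFinset_sum _ hfin]
  have h2 : N * (L / l) ≤ N * (1 / g + η / 2) := mul_le_mul_of_nonneg_left hLl hN0
  have h3 : ∑ χ ∈ hfin.toFinset, ‖Zx χ (1 / 2 + t * I)‖ ^ 2 * w χ ≤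
      (1 + 1 / g + η) * N := by
    nlinarith
  exact h3

end Pool.Agent.H42.SM
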